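import Pool.Agent.W322.HB.Stmts2

/-!
# HB-PARF: the parity formula
-/

set_option autoImplicit false

namespace Pool.Agent.W352.HB

open Finset Pool.Agent.H115R3.DT Pool.Agent.W322.HB

theorem taskParF : TaskParF := by
  intro V _ R m W f h
  have hL : ∑ x ∈ Ls R W f, x = ∑ x ∈ W.erase R.v, f x := by
    unfold Ls
    rw [Finset.sum_image]
    intro x hx y hy hxy
    exact h.inj x (Finset.mem_of_mem_erase hx) y (Finset.mem_of_mem_erase hy) hxy
  have hD : ∑ x ∈ Ds R W f, x = ∑ x ∈ W.erase R.v, R.dif f x := by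
    unfold Ds
    rw [Finset.sum_image]
    intro x hx y hy hxy
    exact h.dinj x (Finset.mem_of_mem_erase hx) y (Finset.mem_of_mem_erase hy)
      (Finset.ne_of_mem_erase hx) (Finset.ne_of_mem_erase hy) hxy
  have hmod : ∀ x, (R.dif f x + f x) % 2 = f (R.par x) % 2 := by
    intro x
    unfold RT.dif
    omega
  have hsum : ∑ x ∈ W.erase R.v, f (R.par x) =
      ∑ y ∈ W.erase R.v, ((W.erase R.v).filter (fun x => R.par x = y)).card * f y := by
    have h1 : ∑ x ∈ W.erase R.v, f (R.par x) =
        ∑ y ∈ W, ∑ x ∈ (W.erase R.v).filter (fun x => R.par x = y), f (R.par x) :=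
      (Finset.sum_fiberwise_of_maps_to
        (fun x hx => h.cl x (Finset.mem_of_mem_erase hx)) _).symm
    have h2 : ∀ y, ∑ x ∈ (W.erase R.v).filter (fun x => R.par x = y), f (R.par x) =
        ((W.erase R.v).filter (fun x => R.par x = y)).card * f y := by
      intro y
      rw [Finset.sum_congr rfl (g := fun _ => f y)
        (fun x hx => by rw [(Finset.mem_filter.1 hx).2])]
      rw [Finset.sum_const, smul_eq_mul]
    rw [h1, Finset.sum_congr rfl (fun y _ => h2 y), ← Finset.add_sum_erase W _ h.root, h.f0,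
      mul_zero, zero_add]
  rw [hL, hD, ← Finset.sum_add_distrib, Finset.sum_nat_mod,
    Finset.sum_congr rfl (fun x _ => hmod x), ← Finset.sum_nat_mod, hsum]

end Pool.Agent.W352.HB
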